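import Mathlib
import Pool.Agent.TH118.MT.Main

/-!
# The Mumford-Tate conjecture for abelian varieties with a place of unipotent rank one

Let `A` be an abelian variety over a finitely generated field of complex numbers, `W = H_1(A, ℚ)`
with the polarization form `ω₀`, `T` the tangent space at the origin and `per : W → T` the inclusion;
`V = ℚ_ℓ ⊗ W` is the rational Tate module, with the action `ρ` of the Galois group `Γ` (of the
field, or of a finite extension) and the cyclotomic character `χ`.  Let `K` be the algebraic closure
of `ℚ_ℓ` and `X = K ⊗ V`.  A subspace of `X` is *strongly irreducible* (`SI`) if it is a minimal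
nonzero subspace stable under a subgroup of finite index.

Hypotheses.

* `hss`, `hF`: the theorems of Faltings (semisimplicity; the endomorphisms of `V` which commute with
  an open subgroup of the Galois group are combinations of endomorphisms of `A`).
* `hE`: `X` is the sum of strongly irreducible subspaces `E i` of dimension at least three.  If the
  endomorphism ring of `A` over the algebraic closure is `ℤ` there is just one, `E = X`;
  if the endomorphism algebra is a totally real field or a totally indefinite quaternion
  algebra (types I and II of Albert) they correspond to the embeddings of the centre in `K`.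
* `hbi`: for each `i` there is an element `γ` of the group (in an inertia group), of finite order on
  `X`, which acts on each `E j` as a scalar times a symplectic transformation with eigenvalues
  `ζ j`, `(ζ j)⁻¹` on a hyperbolic plane, and the identity on its orthogonal complement
  (`BireflectsOn`), where `ζ i` is different from `1` and `-1`, and no `ζ j` is of order three.
* `hfrob`: for each `i` there is a diagonalizable element of the group (a Frobenius element) with two
  eigenvectors in `E i` such that the quotient of the eigenvalues is not a root of unity.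

Theorem.  All Tate classes in all the tensor powers `(H^1)^{⊗ 2 m}(m)` are linear combinations of
Hodge classes, and even of products of Hodge classes of degree two.  Together with the theorem of Deligne
(Hodge classes are Tate classes) this is the equality of the Mumford-Tate group (over `ℚ_ℓ`) and of
the connected component of the `ℓ`-adic monodromy group: both are reductive, so that they are
determined by their invariants in the spaces `(H^1)^{⊗ 2 m}(m)`.  So the Mumford-Tate conjecture holds
for `A`; both groups are the full centralizer of `End(A)` in the group of symplectic similitudes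
(its connected component), and the Hodge and the Tate conjecture hold for all powers of `A`.

Example 1.  Let the endomorphism ring of `A` (over the algebraic closure) be `ℤ`, `A` of
dimension at least two, and let `v` be a place (a discrete valuation) of residue characteristic
different from `2`, `3` and `ℓ`, where `A` has potentially good reduction and the fixed space of
the inertia group in `V` has codimension two (so the connected special fibre of the Néron model has
unipotent rank one and no torus).  The inertia group at `v` acts through a finite cyclic group, and the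
eigenvalues of a generator are `ζ`, `ζ⁻¹` and `1`, where `ζ` is of order 2, 3, 4 or 6.  If this order
is 4 or 6 then the theorem applies: the Mumford-Tate conjecture holds for `A`, with
Mumford-Tate group equal to the group of all symplectic similitudes.

Example 2.  `A` is the Jacobian of a curve `C`, with endomorphism ring `ℤ`, which has at a
place `v` as before a reduction with one cusp and no other singularity, such that the elliptic
tail `y ^ 2 = x ^ 3 + a x + b` given by the cusp is of Kodaira type `II`, `II*`, `III` or `III*`.

In particular there is no condition on the dimension of `A`; for endomorphism ring `ℤ` the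
theorems of Serre and Pink ask that twice the dimension avoids exceptional values such as `8` or `64`.
For toric rank one (a reduction with one node and a transvection in the inertia group) this is the
theorem of Hall.  Here the inertia groups are finite, and `A` can have potentially good
reduction everywhere.
-/

namespace Pool.Agent.Results.MP_33b3f9_ag.CuspMumfordTate

open Module TensorProduct Pool.Agent.H204R3.SP Pool.Agent.H204R3.GP Pool.Agent.W522.U
open Pool.Agent.TH118.CR Pool.Agent.TH118.CU Pool.Agent.TH118.MT

theorem result (ℓ : ℕ) [Fact ℓ.Prime]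
    -- the complex abelian variety `A` with a polarization
    {W T : Type} [AddCommGroup W] [Module ℚ W] [FiniteDimensional ℚ W] [AddCommGroup T] [Module ℂ T]
    (per : W →+ T) (ω₀ : W →ₗ[ℚ] W →ₗ[ℚ] ℚ) (halt : ∀ v, ω₀ v v = 0)
    (hnondeg : ∀ u, (∀ v, ω₀ v u = 0) → u = 0) (hω₀ : IsHodgeBilinear per ω₀)
    -- the action of the Galois group on the Tate module
    {Γ : Type} [Group Γ] (ρ : Representation ℚ_[ℓ] Γ (ℚ_[ℓ] ⊗[ℚ] W)) (χ : Γ →* ℚ_[ℓ])
    (hω : ∀ s u v, bcb ℚ_[ℓ] ω₀ (ρ s u) (ρ s v) = χ s * bcb ℚ_[ℓ] ω₀ u v)
    -- the theorems of Faltings
    (hss : FiniteIndexSemisimple ρ) (hF : FaltingsEnd per (incl ℚ_[ℓ] W) ρ)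
    -- the symplectic bireflections
    {I : Type} (E : I → Submodule (AlgebraicClosure ℚ_[ℓ])
      (AlgebraicClosure ℚ_[ℓ] ⊗[ℚ_[ℓ]] (ℚ_[ℓ] ⊗[ℚ] W)))
    (hE : StronglyIrreducibleSum (bcr ρ (AlgebraicClosure ℚ_[ℓ])) E)
    (hbi : HasBireflections (bcr ρ (AlgebraicClosure ℚ_[ℓ]))
      (bcb (AlgebraicClosure ℚ_[ℓ]) (bcb ℚ_[ℓ] ω₀)) E)
    (hfrob : HasFrobenii (bcr ρ (AlgebraicClosure ℚ_[ℓ])) E) :
    MumfordTateStrong per (incl ℚ_[ℓ] W) ρ χ := by
  classical
  have hl1 : ∀ u, (∀ v, bcb ℚ_[ℓ] ω₀ u v = 0) → u = 0 :=
    fun u hu => bcb_nondeg_left ω₀ hnondeg (left_nondeg ω₀ halt hnondeg) u hu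
  have hr1 : ∀ u, (∀ v, bcb ℚ_[ℓ] ω₀ v u = 0) → u = 0 :=
    fun u hu => bcb_nondeg_right ω₀ hnondeg (left_nondeg ω₀ halt hnondeg) u hu
  refine mumfordTate_of per (incl ℚ_[ℓ] W) ρ χ (bcb ℚ_[ℓ] ω₀) hl1 hω ω₀ hω₀ (fun x y => ?_) hF
    fun m φ hφ => ?_
  · rw [incl_apply, incl_apply, bcb_one, eq_ratCast]
  · refine tate_descent_any (Ω := AlgebraicClosure ℚ_[ℓ]) (Module.finBasis ℚ_[ℓ] _) ρ χ
      (fun φ' hφ' => ?_) φ hφ
    exact bi_pt (bcb (AlgebraicClosure ℚ_[ℓ]) (bcb ℚ_[ℓ] ω₀))
      (bcb_alt (Ω := AlgebraicClosure ℚ_[ℓ]) (bcb ℚ_[ℓ] ω₀) (bcb_alt (Ω := ℚ_[ℓ]) ω₀ halt))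
      (fun u hu => bcb_nondeg_left (bcb ℚ_[ℓ] ω₀) hr1 hl1 u hu)
      (bcb_inv (Ω := AlgebraicClosure ℚ_[ℓ]) ρ χ (bcb ℚ_[ℓ] ω₀) hω) (hasProj_bcr ρ _ hss) hE hbi
      hfrob φ' hφ'

end Pool.Agent.Results.MP_33b3f9_ag.CuspMumfordTate
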