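import Pool.Agent.TH30.MT.Fin

/-!
# One quartic Tate class decides the Mumford-Tate conjecture for an abelian variety

Let `A` be an abelian variety over a finitely generated field `K` of characteristic zero, embedded in
`ℂ`, and `ℓ` a prime number. `W = H₁(A(ℂ), ℚ)`, `T` is the tangent space, `per : W → T` the inclusion,
`ω₀` a polarization; `V = ℚ_ℓ ⊗ W` is the rational Tate module, on which `Γ = Gal(K̄/K)` acts by `ρ`;
`χ` is the cyclotomic character and `ω` the Weil pairing of the polarization. A Tate class of degree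
`2 m` is a `2 m`-linear form on `V` (an element of `H¹(A)^{⊗ 2 m}(m)`) which is fixed by a subgroup of
finite index; a Hodge class is a `2 m`-linear form on `W` invariant under the Hodge structure. Both
the Mumford-Tate group of `A` and the connected algebraic monodromy group are reductive, so the
Mumford-Tate conjecture for `A` says that all Tate classes, for all `m`, are combinations of Hodge
classes with coefficients in `ℚ_ℓ`.

Let `𝔤 = lieT ρ χ` be the Lie algebra of the endomorphisms of `V` which annihilate all Tate classes.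
Its Casimir class is the quartic form `Θ (v₁, v₂, v₃, v₄) = ∑ ω (X_i v₁) v₂ * ω (Y_i v₃) v₄`, where
`X_i` and `Y_i` are bases of `𝔤` dual to each other for the trace form.

Theorem: the Casimir class exists, it is a Tate class (of degree `4`: a class of codimension two on
`A⁴`), and the Mumford-Tate conjecture for `A` (all Tate classes of all degrees on all powers) holds if
and only if this one class is a combination of Hodge classes.

Known theorems about `A` are used as hypotheses: the theorems of Faltings on endomorphisms and on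
semisimplicity (for the group `Γ`), the theorem of Deligne (Hodge classes are Tate classes) and the
theorem on the centres (Vasiu; Ullmo and Yafaev). The proof passes from the compact group `Γ` to the
Lie algebra by `ℓ`-adic logarithms.
-/

namespace Pool.Agent.Results.MP_33b3f9_ag.QuarticClassSuffices

open TensorProduct Pool.Agent.H204R3.GP Pool.Agent.W516.MTD Pool.Agent.TH30.MT

/-- **One quartic Tate class decides the Mumford-Tate conjecture.** -/
theorem result {ℓ : ℕ} [Fact ℓ.Prime]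
    -- the Hodge structure of `A` and a polarization
    {W T : Type} [AddCommGroup W] [Module ℚ W] [FiniteDimensional ℚ W] [AddCommGroup T] [Module ℂ T]
    (per : W →+ T) (hper : IsRationalStructure per)
    (ω₀ : W →ₗ[ℚ] W →ₗ[ℚ] ℚ) (hR : IsRiemannForm per ω₀)
    -- the Galois representation
    {Γ : Type} [Group Γ] [TopologicalSpace Γ] [IsTopologicalGroup Γ] [CompactSpace Γ]
    (ρ : Representation ℚ_[ℓ] Γ (ℚ_[ℓ] ⊗[ℚ] W)) (χ : Γ →* ℚ_[ℓ])
    (hρ : ∀ (v : ℚ_[ℓ] ⊗[ℚ] W) (f : ℚ_[ℓ] ⊗[ℚ] W →ₗ[ℚ_[ℓ]] ℚ_[ℓ]),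
      Continuous fun s => f (ρ s v))
    (hχ : Continuous χ)
    -- the Weil pairing
    (ω : ℚ_[ℓ] ⊗[ℚ] W →ₗ[ℚ_[ℓ]] ℚ_[ℓ] ⊗[ℚ] W →ₗ[ℚ_[ℓ]] ℚ_[ℓ])
    (hω : ∀ u v : W, ω ((1 : ℚ_[ℓ]) ⊗ₜ[ℚ] u) ((1 : ℚ_[ℓ]) ⊗ₜ[ℚ] v) = algebraMap ℚ ℚ_[ℓ] (ω₀ u v))
    (hωρ : ∀ s u v, ω (ρ s u) (ρ s v) = χ s * ω u v)
    -- known theorems
    (hFaltings : Faltings per ρ) (hSemisimple : Semisimple ρ) (hDeligne : Deligne per ρ χ)
    (hCentres : Centres per ρ χ) :
    (∃ Θ, IsCasimir ρ χ ω Θ) ∧
    ∀ Θ : MultilinearMap ℚ_[ℓ] (fun _ : Fin 2 × Fin 2 => ℚ_[ℓ] ⊗[ℚ] W) ℚ_[ℓ],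
      IsCasimir ρ χ ω Θ → IsTateTensor ρ χ 2 Θ ∧
      (IsHodgeCombination per Θ ↔ ∀ (m : ℕ)
        (φ : MultilinearMap ℚ_[ℓ] (fun _ : Fin m × Fin 2 => ℚ_[ℓ] ⊗[ℚ] W) ℚ_[ℓ]),
        IsTateTensor ρ χ m φ → IsHodgeCombination per φ) :=
  main per ρ χ hρ hχ ω₀ ω hper hR hω hωρ hDeligne hFaltings hSemisimple hCentres

end Pool.Agent.Results.MP_33b3f9_ag.QuarticClassSuffices
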